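import Pool.Agent.H.MP_36bee3_al.B

namespace Pool.Agent.Results.MP_36bee3_al.Counter

open Pool.Agent.H.MP_36bee3_al

theorem result :
    ∃ 𝔛 : (H : Type) → [Group H] → Prop,
      (∀ (H : Type) [Group H], 𝔛 H → Finite H ∧ Group.IsSolvable H) ∧
      (∀ (H K : Type) [Group H] [Group K], Nonempty (H ≃* K) → 𝔛 H → 𝔛 K) ∧
      𝔛 Unit ∧
      (∀ (H : Type) [Group H] [Finite H], Group.IsSolvable H → ∀ S : Set (Subgroup H),
        (∀ N ∈ S, N.IsSubnormal ∧ 𝔛 N) → sSup S = ⊤ → 𝔛 H) ∧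
      (∀ (H : Type) [Group H] (K : Subgroup H), 𝔛 H →
        Group.IsNilpotent (K ⧸ K.normalCore.subgroupOf K) → 𝔛 K) ∧
      ∃ (G : Type) (_ : Group G) (_ : Finite G) (M₁ M₂ : Subgroup G) (_ : M₁.Normal)
        (_ : M₂.Normal), Group.IsSolvable G ∧ M₁ ⊓ M₂ = ⊥ ∧ 𝔛 (G ⧸ M₁) ∧ 𝔛 (G ⧸ M₂) ∧ ¬ 𝔛 G := by
  have u : Cl Unit := ⟨inferInstance, fun _ _ _ _ _ => one_mem (rad (T 3) Unit)⟩
  exact ⟨fun H _ => Cl H ∧ Group.IsSolvable H, fun H _ h => ⟨h.1.1, h.2⟩,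
    fun H K _ _ ⟨e⟩ h => ⟨fC.1 _ _ ⟨e⟩ h.1, have := h.2
      Group.isSolvable_of_surjective (f := e.toMonoidHom) e.surjective⟩, ⟨u, inferInstance⟩,
    fun H _ _ s S h e => ⟨n0 fC u (fun N hN => ⟨(h N hN).1, (h N hN).2.1⟩) e, s⟩,
    fun H _ K h n => ⟨fis h.1 K n, have := h.2; inferInstance⟩,
    G, inferInstance, inferInstance, ψ.ker, χ.ker, inferInstance, inferInstance, inferInstance, dis,
    ⟨fC.1 _ _ ⟨(QuotientGroup.quotientKerEquivOfSurjective ψ sψ).symm⟩ cJ, inferInstance⟩,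
    ⟨fC.1 _ _ ⟨(QuotientGroup.quotientKerEquivOfSurjective χ sχ).symm⟩ cU, inferInstance⟩,
    fun h => nG h.1⟩

end Pool.Agent.Results.MP_36bee3_al.Counter
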